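import Mathlib
import Pool.Agent.MPa7f73e.Defs
import Pool.Agent.MPa7f73e.SumLemmas
import Pool.Agent.MPa7f73e.Final

/-!
# The disjoint union of two unit graphs need not be a unit graph
-/

namespace Pool.Agent.Results.MP_a7f73e_co.UnitUnion

open MPa7f73e

open Classical in
/-- two suitable copies cannot be labelled together with a single isolated vertex -/
theorem not_one (n h₁ m : ℤ) (hn1 : 9400 ≤ n) (hn6 : 6 ∣ n)
    (hnk : ((kap 524 * (kap 524 + 1) : ℕ) : ℤ) < n - 3)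
    (hh1 : h₁ = 24 * (n + 12) + 84) (hm1 : 20 * (h₁ + (n + 12) + 10) ≤ m) (hm6 : 6 ∣ m)
    (hmk : ((kap (h₁ + 4 * (n + 12) + 20).toNat * (kap (h₁ + 4 * (n + 12) + 20).toNat + 1)
      : ℕ) : ℤ) < m - 3) :
    ¬ IsSumGraph ((Gr h₁ m ⊕g Gr 444 n) ⊕g (⊥ : SimpleGraph (Fin 1))) := by
  rintro ⟨l, linj, lpos, ladj⟩
  obtain ⟨L, hLdef⟩ : ∃ L : Finset ℤ, L = (Set.finite_range l).toFinset := ⟨_, rfl⟩
  have hL : ∀ y, y ∈ L ↔ ∃ w, l w = y := by
    intro y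
    rw [hLdef, Set.Finite.mem_toFinset, Set.mem_range]
  have E₁ := emb_of _ l linj lpos ladj L hL (fun v : VT h₁ m => Sum.inl (Sum.inl v))
    (by
      intro u v huv
      simpa using huv)
    (by
      intro u v
      simp)
    (by
      rintro u ((w | w) | w) hadj
      · exact ⟨w, rfl⟩
      · simp at hadj
      · simp at hadj)
  have E₂ := emb_of _ l linj lpos ladj L hL (fun v : VT 444 n => Sum.inl (Sum.inr v))
    (by
      intro u v huv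
      simpa using huv)
    (by
      intro u v
      simp)
    (by
      rintro u ((w | w) | w) hadj
      · simp at hadj
      · exact ⟨w, rfl⟩
      · simp at hadj)
  refine final E₁ E₂ (l (Sum.inr 0)) ?_ ?_ rfl hn1 hn6 hnk hh1 hm1 hm6 hmk
  · intro y hy
    obtain ⟨w, rfl⟩ := (hL y).1 hy
    rcases w with (w | w) | w
    · left
      rw [own_iff]
      exact ⟨w, rfl⟩
    · right; left
      rw [own_iff]
      exact ⟨w, rfl⟩
    · right; right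
      rw [Subsingleton.elim w 0]
  · intro y h1 h2
    rw [own_iff] at h1 h2
    obtain ⟨u, hu⟩ := h1
    obtain ⟨v, hv⟩ := h2
    rw [hu] at hv
    have := linj hv
    simp at this

lemma gr_sumNumber (h m : ℤ) (hh : 80 ≤ h) (he : ∃ H, h = 2 * H) (hm : 20 * (h + 10) ≤ m) :
    sumNumber (Gr h m) = 1 := by
  have h1 : 1 ∈ {r : ℕ | IsSumGraph (Gr h m ⊕g (⊥ : SimpleGraph (Fin r)))} :=
    gr_isSumGraph hh he hm
  have h0 : 0 ∉ {r : ℕ | IsSumGraph (Gr h m ⊕g (⊥ : SimpleGraph (Fin r)))} := by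
    intro hcon
    have : Nonempty (VT h m ⊕ Fin 0) := ⟨Sum.inl (Sum.inr 0)⟩
    refine not_isSumGraph _ ?_ hcon
    rintro (v | v)
    · obtain ⟨u, hu⟩ := gr_noIsolated hh hm v
      exact ⟨Sum.inl u, by simpa using hu⟩
    · exact v.elim0
  have h2 : sumNumber (Gr h m) ≤ 1 := Nat.sInf_le h1
  have h3 : sumNumber (Gr h m) ≠ 0 := by
    intro hcon
    apply h0
    rw [← hcon]
    exact Nat.sInf_mem ⟨1, h1⟩
  omega

/-- There are connected finite graphs `G₁`, `G₂` with sum number `1` whose disjoint union has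
sum number `2`. -/
theorem result : ∃ (V W : Type) (_ : Finite V) (_ : Finite W) (G₁ : SimpleGraph V)
    (G₂ : SimpleGraph W), G₁.Connected ∧ G₂.Connected ∧
      sumNumber G₁ = 1 ∧ sumNumber G₂ = 1 ∧ sumNumber (G₁ ⊕g G₂) = 2 := by
  obtain ⟨N, hN⟩ : ∃ N : ℕ, N = kap 524 * (kap 524 + 1) := ⟨_, rfl⟩
  obtain ⟨n, hn⟩ : ∃ n : ℤ, n = 6 * ((N : ℤ) + 9400) := ⟨_, rfl⟩
  obtain ⟨h₁, hh₁⟩ : ∃ h₁ : ℤ, h₁ = 24 * (n + 12) + 84 := ⟨_, rfl⟩
  obtain ⟨N', hN'⟩ : ∃ N' : ℕ, N' = kap (h₁ + 4 * (n + 12) + 20).toNat *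
    (kap (h₁ + 4 * (n + 12) + 20).toNat + 1) := ⟨_, rfl⟩
  obtain ⟨m, hm⟩ : ∃ m : ℤ, m = 6 * ((N' : ℤ) + 20 * (h₁ + (n + 12) + 10)) := ⟨_, rfl⟩
  have hN0 : (0 : ℤ) ≤ N := Int.natCast_nonneg N
  have hN'0 : (0 : ℤ) ≤ N' := Int.natCast_nonneg N'
  have not1 := not_one n h₁ m (by omega) ⟨_, hn⟩ (by rw [← hN]; omega) hh₁ (by omega)
    ⟨_, hm⟩ (by rw [← hN']; omega)
  have even1 : ∃ H, h₁ = 2 * H := ⟨12 * (n + 12) + 42, by omega⟩
  have even2 : ∃ H, (444 : ℤ) = 2 * H := ⟨222, by norm_num⟩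
  have s1 := gr_isSumGraph (h := h₁) (m := m) (by omega) even1 (by omega)
  have s2 := gr_isSumGraph (h := 444) (m := n) (by omega) even2 (by omega)
  refine ⟨VT h₁ m, VT 444 n, inferInstance, inferInstance, Gr h₁ m, Gr 444 n,
    gr_connected (by omega) (by omega), gr_connected (by omega) (by omega),
    gr_sumNumber h₁ m (by omega) even1 (by omega),
    gr_sumNumber 444 n (by omega) even2 (by omega), ?_⟩
  have h2 : 2 ∈ {r : ℕ | IsSumGraph ((Gr h₁ m ⊕g Gr 444 n) ⊕g (⊥ : SimpleGraph (Fin r)))} :=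
    IsSumGraph.iso (isoTwo _ _) (IsSumGraph.sum s1 s2)
  have h1 : 1 ∉ {r : ℕ | IsSumGraph ((Gr h₁ m ⊕g Gr 444 n) ⊕g
      (⊥ : SimpleGraph (Fin r)))} := not1
  have h0 : 0 ∉ {r : ℕ | IsSumGraph ((Gr h₁ m ⊕g Gr 444 n) ⊕g
      (⊥ : SimpleGraph (Fin r)))} := by
    intro hcon
    have : Nonempty ((VT h₁ m ⊕ VT 444 n) ⊕ Fin 0) := ⟨Sum.inl (Sum.inl (Sum.inr 0))⟩
    refine not_isSumGraph _ ?_ hcon
    rintro ((v | v) | v)
    · obtain ⟨u, hu⟩ := gr_noIsolated (h := h₁) (m := m) (by omega) (by omega) v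
      exact ⟨Sum.inl (Sum.inl u), by simpa using hu⟩
    · obtain ⟨u, hu⟩ := gr_noIsolated (h := 444) (m := n) (by omega) (by omega) v
      exact ⟨Sum.inl (Sum.inr u), by simpa using hu⟩
    · exact v.elim0
  have hle : sumNumber (Gr h₁ m ⊕g Gr 444 n) ≤ 2 := Nat.sInf_le h2
  have hmem : sumNumber (Gr h₁ m ⊕g Gr 444 n) ∈
      {r : ℕ | IsSumGraph ((Gr h₁ m ⊕g Gr 444 n) ⊕g (⊥ : SimpleGraph (Fin r)))} :=
    Nat.sInf_mem ⟨2, h2⟩
  have hne0 : sumNumber (Gr h₁ m ⊕g Gr 444 n) ≠ 0 := by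
    intro hcon
    rw [hcon] at hmem
    exact h0 hmem
  have hne1 : sumNumber (Gr h₁ m ⊕g Gr 444 n) ≠ 1 := by
    intro hcon
    rw [hcon] at hmem
    exact h1 hmem
  omega

end Pool.Agent.Results.MP_a7f73e_co.UnitUnion
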